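import Mathlib

/-!
# A weak cop win graph with the double long return property

The answer to Q1 is yes: we give an explicit connected graph `Γ` which is a weak cop win and has the double long return
property. It is countable and has vertices of infinite degree. It is a chain of stations; the station `n` has a centre
`v n` (adjacent to `v (n + 1)`) and for every `j : ℕ` a gadget with the vertices `g n j`, `h n j`, `a n j`, `b n j`,
`c n j`, `p n j`, `q n j`. The robber walks on the vertices `v n`, `a n j`, `b n j`, `c n j` and leaves the gadget `j`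
only through the centre. From `v n` the cop goes to `h n j`, `p n j` (`q n j`) and thereby drives the robber out of the
gadget `j`, but then he is at `g n j`, which guards exactly the gadgets with a number at least `j`. So the robber, who
begins with the gadget `m + n`, comes back to the centre `m + n + 1` times before he has to go on to the next station,
and since the numbers of the gadgets cannot decrease forever, the cop forces him out of every finite set.
-/

set_option autoImplicit false

namespace Pool.Agent.Results.MP_70f359_co.WeakWinWithReturns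

/-- a legal move from `x` to `y`: to stay or to go to an adjacent vertex -/
def Near {V : Type} (G : SimpleGraph V) (x y : V) : Prop := x = y ∨ G.Adj x y

/-- a sequence of positions in which every step is a legal move -/
def Legal {V : Type} (G : SimpleGraph V) (f : ℕ → V) : Prop := ∀ k, Near G (f k) (f (k + 1))

/-- Here `c k` and `r k` are the positions of the cop and of the robber after their `k`-th moves (for `k = 0` the
starting vertices); the cop moves first, so that he goes to `c (k + 1)` while the robber is at `r k`, and then the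
robber goes to `r (k + 1)`. The robber is caught if both are at the same vertex at some moment. -/
def Caught {V : Type} (c r : ℕ → V) : Prop := ∃ k, c k = r k ∨ c (k + 1) = r k

/-- the cop starts at `c₀` and follows the strategy `σ`, which gives his move as a function of the positions
`r 0, ..., r k` of the robber seen so far -/
def CopFollows {V : Type} (c₀ : V) (σ : List V → V) (c r : ℕ → V) : Prop :=
  c 0 = c₀ ∧ ∀ k, c (k + 1) = σ ((List.range (k + 1)).map r)

/-- the robber starts at `r₀` and follows the strategy `ρ`, which gives his move as a function of the moves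
`c 1, ..., c (k + 1)` of the cop seen so far -/
def RobberFollows {V : Type} (r₀ : V) (ρ : List V → V) (c r : ℕ → V) : Prop :=
  r 0 = r₀ ∧ ∀ k, r (k + 1) = ρ ((List.range (k + 1)).map fun i => c (i + 1))

/-- the cop has a strategy (of legal moves) which guarantees that he catches the robber or that the robber is at every
vertex at only finitely many times -/
def WeakCopWin {V : Type} (G : SimpleGraph V) : Prop :=
  ∃ (c₀ : V) (σ : List V → V), ∀ c r : ℕ → V, CopFollows c₀ σ c r → Legal G r →
    Legal G c ∧ (Caught c r ∨ ∀ x, {k | r k = x}.Finite)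

/-- the double long return property: for every starting vertex `c₀` of the cop there is a starting vertex `x` of the
robber such that for all positive `m`, `n` the robber has a strategy (of legal moves) with which he is never caught and
all his positions are in a finite set, or he is at `x` at two times `t ≥ m` and `s ≥ t + n` -/
def DoubleLongReturn {V : Type} (G : SimpleGraph V) : Prop :=
  ∀ c₀ : V, ∃ x : V, ∀ m n : ℕ, 0 < m → 0 < n → ∃ ρ : List V → V, ∀ c r : ℕ → V,
    c 0 = c₀ → Legal G c → RobberFollows x ρ c r →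
      Legal G r ∧ ¬ Caught c r ∧
        ((∃ F : Set V, F.Finite ∧ ∀ k, r k ∈ F) ∨ ∃ t s : ℕ, m ≤ t ∧ t + n ≤ s ∧ r t = x ∧ r s = x)

/-- the vertices of the graph -/
inductive W
  | v (n : ℕ) | g (n j : ℕ) | h (n j : ℕ) | a (n j : ℕ) | b (n j : ℕ) | c (n j : ℕ) | p (n j : ℕ) | q (n j : ℕ)

open W

/-- the edges (in one direction) -/
def E : W → W → Prop
  | v n, v m => m = n + 1
  | v n, g m _ => m = n ∨ m = n + 1
  | v n, h m _ => m = n
  | v n, a m _ => m = n
  | v n, c m _ => m = n
  | g n i, g m j => m = n ∧ i ≠ j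
  | g n i, h m j => m = n ∧ i ≤ j
  | g n i, a m j => m = n ∧ i ≤ j
  | g n i, c m j => m = n ∧ i ≤ j
  | g n i, p m j => m = n ∧ i = j
  | g n i, q m j => m = n ∧ i = j
  | h n i, a m j => m = n ∧ i = j
  | h n i, p m j => m = n ∧ i = j
  | a n i, b m j => m = n ∧ i = j
  | a n i, p m j => m = n ∧ i = j
  | b n i, c m j => m = n ∧ i = j
  | b n i, p m j => m = n ∧ i = j
  | b n i, q m j => m = n ∧ i = j
  | c n i, q m j => m = n ∧ i = j
  | p n i, q m j => m = n ∧ i = j
  | _, _ => False

def A (x y : W) : Prop := E x y ∨ E y x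

/-- the graph -/
def Γ : SimpleGraph W where
  Adj := A
  symm := ⟨fun _ _ (h : A _ _) => Or.symm h⟩
  loopless := ⟨by
    intro x hx
    cases x <;> simp [A, E] at hx⟩

/-- the station of a vertex -/
def st : W → ℕ
  | v n => n | g n _ => n | h n _ => n | a n _ => n | b n _ => n | c n _ => n | p n _ => n | q n _ => n

/-- the number of the gadget of a vertex -/
def ix : W → ℕ
  | v _ => 0 | g _ j => j | h _ j => j | a _ j => j | b _ j => j | c _ j => j | p _ j => j | q _ j => j

open Classical in
/-- the move of the cop -/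
noncomputable def cm (y r : W) : W :=
  if A y r then r else
  match y with
  | v n => if st r = n then (if r = v n then v n else h n (ix r)) else if n < st r then v (n + 1) else v n
  | h n j => p n j
  | p n j => if r = c n j then q n j else g n j
  | q n j => g n j
  | g n _ => v n
  | x => x

def good : W → W → Prop
  | v n, r => n ≤ st r
  | h n j, r => r = b n j ∨ r = c n j ∨ r = q n j
  | p n j, r => r = c n j ∨ r = v n ∨ ∃ i < j, r = g n i
  | q n j, r => r = v n ∨ ∃ i < j, r = g n i
  | g n j, r => r = v (n + 1) ∨ (∃ l, r = g (n + 1) l) ∨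
      ∃ l < j, r = h n l ∨ r = a n l ∨ r = c n l ∨ r = p n l ∨ r = q n l
  | _, _ => False

open Classical in
noncomputable def mu : W → W → ℕ
  | v n, r => if st r = n then 6 * ix r + 5 else 0
  | h _ j, _ => 6 * j + 4
  | p n j, r => if r = c n j then 6 * j + 3 else 6 * j + 2
  | q _ j, _ => 6 * j + 2
  | g _ j, _ => 6 * j + 1
  | _, _ => 0

theorem good_st {y r : W} (h : good y r) : st y ≤ st r := by
  cases y <;> simp only [good] at h
  · exact h
  · rcases h with rfl | ⟨l, rfl⟩ | ⟨l, -, rfl | rfl | rfl | rfl | rfl⟩ <;> simp [st]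
  · rcases h with rfl | rfl | rfl <;> simp [st]
  · rcases h with rfl | rfl | ⟨i, -, rfl⟩ <;> simp [st]
  · rcases h with rfl | ⟨i, -, rfl⟩ <;> simp [st]

theorem cm_near (y r : W) : Near Γ y (cm y r) := by
  unfold Near
  by_cases hA : A y r
  · right
    simp only [cm, hA, if_true]
    exact hA
  · cases y <;> simp only [cm, hA, if_false]
    all_goals try (left; trivial)
    all_goals try (right; simp [Γ, A, E]; done)
    all_goals split_ifs
    all_goals first
      | (left; rfl)
      | (right; simp [Γ, A, E]; done)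

theorem stepc_v (n : ℕ) (r r' : W) (hg : n ≤ st r) (h1 : ¬ A (v n) r) (h2 : v n ≠ r) (hr : r = r' ∨ A r r')
    (h3 : cm (v n) r ≠ r') (h4 : ¬ A (cm (v n) r) r') :
    good (cm (v n) r) r' ∧ ((st (cm (v n) r) = n ∧ mu (cm (v n) r) r' < mu (v n) r) ∨
      n < st (cm (v n) r)) := by
  have h5 : r ≠ v n := fun h => h2 h.symm
  by_cases hn : st r = n
  · have hc : cm (v n) r = h n (ix r) := by simp [cm, h1, hn, h5]
    rw [hc] at h3 h4 ⊢
    have hm : mu (v n) r = 6 * ix r + 5 := by simp [mu, hn]
    have hm' : mu (h n (ix r)) r' = 6 * ix r + 4 := by simp [mu]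
    refine ⟨?_, Or.inl ⟨rfl, by omega⟩⟩
    cases r <;> simp only [st] at hn <;> subst hn
    all_goals simp [A, E] at h1 h5
    all_goals
      rcases hr with rfl | hr
      · simp_all [good, ix, A, E]
      · cases r' <;> simp_all [good, ix, A, E]
  · have hlt : n < st r := lt_of_le_of_ne hg (Ne.symm hn)
    have hc : cm (v n) r = v (n + 1) := by simp [cm, h1, hn, hlt]
    rw [hc] at h3 h4 ⊢
    refine ⟨?_, Or.inr (by simp [st])⟩
    show n + 1 ≤ st r'
    rcases hr with rfl | hr
    · exact hlt
    · cases r <;> cases r' <;> simp_all [st, A, E] <;> omega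

theorem stepc_h (n j : ℕ) (r r' : W) (hg : good (h n j) r) (h1 : ¬ A (h n j) r) (hr : r = r' ∨ A r r')
    (h3 : cm (h n j) r ≠ r') (h4 : ¬ A (cm (h n j) r) r') :
    good (cm (h n j) r) r' ∧ st (cm (h n j) r) = n ∧ mu (cm (h n j) r) r' < mu (h n j) r := by
  have hc : cm (h n j) r = p n j := by simp [cm, h1]
  rw [hc] at h3 h4 ⊢
  have hm : mu (p n j) r' < mu (h n j) r := by
    simp only [mu]
    split_ifs <;> omega
  refine ⟨?_, rfl, hm⟩
  simp only [good] at hg ⊢
  rcases hg with rfl | rfl | rfl
  all_goals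
    rcases hr with rfl | hr
    · simp_all [A, E]
    · cases r' <;> simp [A, E] at hr h3 h4 ⊢ <;> omega

theorem stepc_p (n j : ℕ) (r r' : W) (hg : good (p n j) r) (h1 : ¬ A (p n j) r) (hr : r = r' ∨ A r r')
    (h3 : cm (p n j) r ≠ r') (h4 : ¬ A (cm (p n j) r) r') :
    good (cm (p n j) r) r' ∧ st (cm (p n j) r) = n ∧ mu (cm (p n j) r) r' < mu (p n j) r := by
  simp only [good] at hg
  rcases hg with rfl | rfl | ⟨i, hi, rfl⟩
  · have hc : cm (p n j) (c n j) = q n j := by simp [cm, h1]
    rw [hc] at h3 h4 ⊢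
    refine ⟨?_, rfl, by simp [mu]⟩
    simp only [good]
    rcases hr with rfl | hr
    · simp_all [A, E]
    · cases r' <;> simp [A, E] at hr h3 h4 ⊢ <;> omega
  · have hc : cm (p n j) (v n) = g n j := by simp [cm, h1]
    rw [hc] at h3 h4 ⊢
    refine ⟨?_, rfl, by simp [mu]⟩
    simp only [good]
    rcases hr with rfl | hr
    · simp_all [A, E]
    · cases r' <;> simp [A, E] at hr h3 h4 ⊢ <;> omega
  · have hc : cm (p n j) (g n i) = g n j := by simp [cm, h1]
    rw [hc] at h3 h4 ⊢
    refine ⟨?_, rfl, by simp [mu]⟩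
    simp only [good]
    rcases hr with rfl | hr
    · simp_all [A, E]
    · cases r' <;> simp [A, E] at hr h3 h4 ⊢ <;> omega

theorem stepc_q (n j : ℕ) (r r' : W) (hg : good (q n j) r) (h1 : ¬ A (q n j) r) (hr : r = r' ∨ A r r')
    (h3 : cm (q n j) r ≠ r') (h4 : ¬ A (cm (q n j) r) r') :
    good (cm (q n j) r) r' ∧ st (cm (q n j) r) = n ∧ mu (cm (q n j) r) r' < mu (q n j) r := by
  have hc : cm (q n j) r = g n j := by simp [cm, h1]
  rw [hc] at h3 h4 ⊢
  refine ⟨?_, rfl, by simp [mu]⟩
  simp only [good] at hg ⊢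
  rcases hg with rfl | ⟨i, hi, rfl⟩
  all_goals
    rcases hr with rfl | hr
    · simp_all [A, E]
    · cases r' <;> simp [A, E] at hr h3 h4 ⊢ <;> omega

theorem stepc_g (n j : ℕ) (r r' : W) (hg : good (g n j) r) (h1 : ¬ A (g n j) r) (hr : r = r' ∨ A r r')
    (h3 : cm (g n j) r ≠ r') (h4 : ¬ A (cm (g n j) r) r') :
    good (cm (g n j) r) r' ∧ st (cm (g n j) r) = n ∧ mu (cm (g n j) r) r' < mu (g n j) r := by
  have hc : cm (g n j) r = v n := by simp [cm, h1]
  rw [hc] at h3 h4 ⊢
  simp only [good, mu, st] at hg ⊢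
  have e1 : ¬ (n + 1 = n) := by omega
  have e2 : ¬ (n + 1 + 1 = n) := by omega
  rcases hg with rfl | ⟨l, rfl⟩ | ⟨l, hl, rfl | rfl | rfl | rfl | rfl⟩
  all_goals
    rcases hr with rfl | hr
    · simp_all [A, E, st, ix] <;> omega
    · cases r' <;> simp_all [A, E, st, ix] <;> omega

theorem stepc (y r r' : W) (hg : good y r) (h1 : ¬ A y r) (h2 : y ≠ r) (hr : Near Γ r r')
    (h3 : cm y r ≠ r') (h4 : ¬ A (cm y r) r') :
    good (cm y r) r' ∧ ((st (cm y r) = st y ∧ mu (cm y r) r' < mu y r) ∨ st y < st (cm y r)) := by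
  have hr' : r = r' ∨ A r r' := hr
  cases y with
  | v n => exact stepc_v n r r' hg h1 h2 hr' h3 h4
  | h n j => exact (stepc_h n j r r' hg h1 hr' h3 h4).imp id Or.inl
  | p n j => exact (stepc_p n j r r' hg h1 hr' h3 h4).imp id Or.inl
  | q n j => exact (stepc_q n j r r' hg h1 hr' h3 h4).imp id Or.inl
  | g n j => exact (stepc_g n j r r' hg h1 hr' h3 h4).imp id Or.inl
  | a n j => exact absurd hg (by simp [good])
  | b n j => exact absurd hg (by simp [good])
  | c n j => exact absurd hg (by simp [good])

theorem weak_win : WeakCopWin Γ := by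
  refine ⟨v 0, fun l => l.foldl cm (v 0), fun c r hc hr => ?_⟩
  obtain ⟨h0, hs'⟩ := hc
  have hs : ∀ k, c (k + 1) = ((List.range (k + 1)).map r).foldl cm (v 0) := hs'
  have hck : ∀ k, ((List.range k).map r).foldl cm (v 0) = c k := by
    intro k
    cases k with
    | zero => simp [h0]
    | succ k => exact (hs k).symm
  have hrec : ∀ k, c (k + 1) = cm (c k) (r k) := by
    intro k
    rw [hs k, List.range_succ, List.map_append, List.foldl_append, hck k]
    rfl
  refine ⟨fun k => by rw [hrec k]; exact cm_near _ _, ?_⟩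
  by_cases hcau : Caught c r
  · exact Or.inl hcau
  right
  have hne : ∀ k, c k ≠ r k := fun k h => hcau ⟨k, Or.inl h⟩
  have hna : ∀ k, ¬ A (c k) (r k) := by
    intro k hA
    apply hcau
    refine ⟨k, Or.inr ?_⟩
    rw [hrec k]
    simp [cm, hA]
  have hgood : ∀ k, good (c k) (r k) := by
    intro k
    induction k with
    | zero => rw [h0]; exact Nat.zero_le _
    | succ k ih =>
      have := stepc (c k) (r k) (r (k + 1)) ih (hna k) (hne k) (hr k)
        (by rw [← hrec k]; exact hne (k + 1)) (by rw [← hrec k]; exact hna (k + 1))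
      rw [hrec k]
      exact this.1
  have hstep : ∀ k, (st (c (k + 1)) = st (c k) ∧ mu (c (k + 1)) (r (k + 1)) < mu (c k) (r k)) ∨
      st (c k) < st (c (k + 1)) := by
    intro k
    have := stepc (c k) (r k) (r (k + 1)) (hgood k) (hna k) (hne k) (hr k)
      (by rw [← hrec k]; exact hne (k + 1)) (by rw [← hrec k]; exact hna (k + 1))
    rw [← hrec k] at this
    exact this.2
  have hmono : ∀ k i, st (c k) ≤ st (c (k + i)) := by
    intro k i
    induction i with
    | zero => exact le_rfl
    | succ i ih =>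
      rcases hstep (k + i) with h | h
      · exact ih.trans h.1.symm.le
      · exact ih.trans h.le
  have hunb : ∀ N, ∃ k₀, ∀ k, k₀ ≤ k → N ≤ st (c k) := by
    intro N
    induction N with
    | zero => exact ⟨0, fun _ _ => Nat.zero_le _⟩
    | succ N ih =>
      obtain ⟨k₀, hk₀⟩ := ih
      by_cases hex : ∃ k, k₀ ≤ k ∧ N < st (c k)
      · obtain ⟨k₁, hk₁, hlt⟩ := hex
        refine ⟨k₁, fun k hk => ?_⟩
        obtain ⟨i, rfl⟩ := Nat.exists_eq_add_of_le hk
        exact (Nat.succ_le_of_lt hlt).trans (hmono k₁ i)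
      · exfalso
        push Not at hex
        have heq : ∀ i, st (c (k₀ + i)) = N := fun i =>
          le_antisymm (hex _ (Nat.le_add_right _ _)) (hk₀ _ (Nat.le_add_right _ _))
        have hdec : ∀ i, mu (c (k₀ + i)) (r (k₀ + i)) + i ≤ mu (c k₀) (r k₀) := by
          intro i
          induction i with
          | zero => exact le_rfl
          | succ i ih =>
            rcases hstep (k₀ + i) with h | h
            · have h2 := h.2
              rw [← Nat.add_assoc k₀ i 1]
              omega
            · have h1 := heq i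
              have h2 := heq (i + 1)
              rw [← Nat.add_assoc] at h2
              omega
        have := hdec (mu (c k₀) (r k₀) + 1)
        omega
  intro x
  obtain ⟨k₀, hk₀⟩ := hunb (st x + 1)
  refine (Set.finite_lt_nat k₀).subset ?_
  intro k hk
  by_contra hlt
  have h1 := hk₀ k (not_lt.1 hlt)
  have h2 := good_st (hgood k)
  have h3 : r k = x := hk
  rw [h3] at h2
  omega

open Classical in
/-- the reaction of the robber with the state `S` (his position and his budget) to the position `y` of the cop -/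
noncomputable def rs (S : W × ℕ) (y : W) : W × ℕ :=
  if A y S.1 then
    match S.1 with
    | v k => if 0 < S.2 then (a k (S.2 - 1), S.2 - 1) else if st y = k + 1 then (a k 0, 0) else (v (k + 1), 0)
    | a k j => if y = b k j ∨ y = p k j then (v k, S.2) else (b k j, S.2)
    | b k j => if y = a k j ∨ y = p k j then (c k j, S.2) else (a k j, S.2)
    | c k j => if y = b k j ∨ y = q k j then (v k, S.2) else (b k j, S.2)
    | x => (x, S.2)
  else S

/-- if `y` is inside a gadget of the station `n`, then the number of this gadget is at least `β` -/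
def low (n β : ℕ) : W → Prop
  | b m j => m = n → β ≤ j
  | p m j => m = n → β ≤ j
  | q m j => m = n → β ≤ j
  | _ => True

/-- the invariant for the robber: home station `n`, state `S`, the cop at `y` -/
def Inv (n : ℕ) (S : W × ℕ) (y : W) : Prop :=
  y ≠ S.1 ∧ ¬ A y S.1 ∧
    match S.1 with
    | v k => S.2 = 0 ∨ (k = n ∧ low n S.2 y)
    | a k j => S.2 = 0 ∨ (k = n ∧ j = S.2)
    | b k j => S.2 = 0 ∨ (k = n ∧ j = S.2)
    | c k j => S.2 = 0 ∨ (k = n ∧ j = S.2)
    | _ => False

theorem stepr_a (n k j β : ℕ) (y y' : W) (hI : Inv n (a k j, β) y) (hy : y = y' ∨ A y y') :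
    Inv n (rs (a k j, β) y') y' ∧ Near Γ (a k j) (rs (a k j, β) y').1 ∧ (rs (a k j, β) y').2 = β := by
  obtain ⟨h1, h2, h3⟩ := hI
  simp only at h1 h2 h3
  have hne : y' ≠ a k j := by
    rintro rfl
    rcases hy with rfl | hy
    · exact h1 rfl
    · exact h2 hy
  by_cases hA : A y' (a k j)
  · by_cases hc : y' = b k j ∨ y' = p k j
    · have e : rs (a k j, β) y' = (v k, β) := by simp [rs, hA, hc]
      rw [e]
      refine ⟨⟨?_, ?_, ?_⟩, Or.inr ?_, rfl⟩
      · rcases hc with rfl | rfl <;> simp
      · rcases hc with rfl | rfl <;> simp [A, E]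
      · show β = 0 ∨ _
        rcases h3 with h3 | ⟨rfl, rfl⟩
        · exact Or.inl h3
        · right
          rcases hc with rfl | rfl <;> simp [low]
      · show A _ _
        simp [A, E]
    · have e : rs (a k j, β) y' = (b k j, β) := by simp [rs, hA, hc]
      rw [e]
      refine ⟨⟨fun h => hc (Or.inl h), ?_, h3⟩, Or.inr ?_, rfl⟩
      · show ¬ A y' (b k j)
        cases y' <;> simp_all [A, E]
      · show A _ _
        simp [A, E]
  · have e : rs (a k j, β) y' = (a k j, β) := by simp [rs, hA]
    rw [e]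
    exact ⟨⟨hne, hA, h3⟩, Or.inl rfl, rfl⟩

theorem stepr_b (n k j β : ℕ) (y y' : W) (hI : Inv n (b k j, β) y) (hy : y = y' ∨ A y y') :
    Inv n (rs (b k j, β) y') y' ∧ Near Γ (b k j) (rs (b k j, β) y').1 ∧ (rs (b k j, β) y').2 = β := by
  obtain ⟨h1, h2, h3⟩ := hI
  simp only at h1 h2 h3
  have hne : y' ≠ b k j := by
    rintro rfl
    rcases hy with rfl | hy
    · exact h1 rfl
    · exact h2 hy
  by_cases hA : A y' (b k j)
  · by_cases hc : y' = a k j ∨ y' = p k j
    · have e : rs (b k j, β) y' = (c k j, β) := by simp [rs, hA, hc]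
      rw [e]
      refine ⟨⟨?_, ?_, h3⟩, Or.inr ?_, rfl⟩
      · rcases hc with rfl | rfl <;> simp
      · rcases hc with rfl | rfl <;> simp [A, E]
      · show A _ _
        simp [A, E]
    · have e : rs (b k j, β) y' = (a k j, β) := by simp [rs, hA, hc]
      rw [e]
      refine ⟨⟨fun h => hc (Or.inl h), ?_, h3⟩, Or.inr ?_, rfl⟩
      · show ¬ A y' (a k j)
        cases y' <;> simp_all [A, E]
      · show A _ _
        simp [A, E]
  · have e : rs (b k j, β) y' = (b k j, β) := by simp [rs, hA]
    rw [e]
    exact ⟨⟨hne, hA, h3⟩, Or.inl rfl, rfl⟩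

theorem stepr_c (n k j β : ℕ) (y y' : W) (hI : Inv n (c k j, β) y) (hy : y = y' ∨ A y y') :
    Inv n (rs (c k j, β) y') y' ∧ Near Γ (c k j) (rs (c k j, β) y').1 ∧ (rs (c k j, β) y').2 = β := by
  obtain ⟨h1, h2, h3⟩ := hI
  simp only at h1 h2 h3
  have hne : y' ≠ c k j := by
    rintro rfl
    rcases hy with rfl | hy
    · exact h1 rfl
    · exact h2 hy
  by_cases hA : A y' (c k j)
  · by_cases hc : y' = b k j ∨ y' = q k j
    · have e : rs (c k j, β) y' = (v k, β) := by simp [rs, hA, hc]
      rw [e]
      refine ⟨⟨?_, ?_, ?_⟩, Or.inr ?_, rfl⟩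
      · rcases hc with rfl | rfl <;> simp
      · rcases hc with rfl | rfl <;> simp [A, E]
      · show β = 0 ∨ _
        rcases h3 with h3 | ⟨rfl, rfl⟩
        · exact Or.inl h3
        · right
          rcases hc with rfl | rfl <;> simp [low]
      · show A _ _
        simp [A, E]
    · have e : rs (c k j, β) y' = (b k j, β) := by simp [rs, hA, hc]
      rw [e]
      refine ⟨⟨fun h => hc (Or.inl h), ?_, h3⟩, Or.inr ?_, rfl⟩
      · show ¬ A y' (b k j)
        cases y' <;> simp_all [A, E]
      · show A _ _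
        simp [A, E]
  · have e : rs (c k j, β) y' = (c k j, β) := by simp [rs, hA]
    rw [e]
    exact ⟨⟨hne, hA, h3⟩, Or.inl rfl, rfl⟩

theorem stepr_v (n k β : ℕ) (y y' : W) (hI : Inv n (v k, β) y) (hy : y = y' ∨ A y y') :
    Inv n (rs (v k, β) y') y' ∧ Near Γ (v k) (rs (v k, β) y').1 ∧
      ((rs (v k, β) y').2 = β ∨ (k = n ∧ β = (rs (v k, β) y').2 + 1)) := by
  obtain ⟨h1, h2, h3⟩ := hI
  simp only at h1 h2 h3
  have hne : y' ≠ v k := by
    rintro rfl
    rcases hy with rfl | hy
    · exact h1 rfl
    · exact h2 hy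
  by_cases hA : A y' (v k)
  · by_cases hb : 0 < β
    · have e : rs (v k, β) y' = (a k (β - 1), β - 1) := by simp [rs, hA, hb]
      obtain ⟨rfl, h4⟩ : k = n ∧ low n β y := by
        rcases h3 with h3 | h3
        · omega
        · exact h3
      rw [e]
      obtain ⟨β, rfl⟩ : ∃ γ, β = γ + 1 := ⟨β - 1, by omega⟩
      refine ⟨⟨?_, ?_, Or.inr ⟨rfl, rfl⟩⟩, Or.inr ?_, Or.inr ⟨rfl, rfl⟩⟩
      · show y' ≠ a k β
        rintro rfl
        rcases hy with rfl | hy
        · exact h2 (by simp [A, E])
        · cases y <;> simp_all [A, E, low] <;> omega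
      · show ¬ A y' (a k β)
        intro hB
        rcases hy with rfl | hy
        · exact h2 hA
        · cases y' <;> simp [A, E] at hA hB hne
          all_goals cases y <;> simp [A, E, low] at h1 h2 h4 hy
          all_goals omega
      · show A _ _
        simp [A, E]
    · obtain rfl : β = 0 := by omega
      by_cases hs : st y' = k + 1
      · have e : rs (v k, 0) y' = (a k 0, 0) := by simp [rs, hA, hs]
        rw [e]
        refine ⟨⟨?_, ?_, Or.inl rfl⟩, Or.inr ?_, Or.inl rfl⟩
        · rintro rfl
          simp [st] at hs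
        · show ¬ A y' (a k 0)
          cases y' <;> simp_all [A, E, st]
        · show A _ _
          simp [A, E]
      · have e : rs (v k, 0) y' = (v (k + 1), 0) := by simp [rs, hA, hs]
        rw [e]
        refine ⟨⟨?_, ?_, Or.inl rfl⟩, Or.inr ?_, Or.inl rfl⟩
        · rintro rfl
          simp [st] at hs
        · show ¬ A y' (v (k + 1))
          cases y' <;> simp_all [A, E, st] <;> omega
        · show A _ _
          simp [A, E]
  · have e : rs (v k, β) y' = (v k, β) := by simp [rs, hA]
    rw [e]
    refine ⟨⟨hne, hA, ?_⟩, Or.inl rfl, Or.inl rfl⟩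
    show β = 0 ∨ _
    rcases h3 with h3 | ⟨rfl, h4⟩
    · exact Or.inl h3
    · refine Or.inr ⟨rfl, ?_⟩
      show low k β y'
      rcases hy with rfl | hy
      · exact h4
      · cases y' <;> simp only [low]
        all_goals cases y <;> simp [A, E, low] at h1 h2 h4 hy ⊢
        all_goals omega

theorem stepr (n : ℕ) (S : W × ℕ) (y y' : W) (hI : Inv n S y) (hy : Near Γ y y') :
    Inv n (rs S y') y' ∧ Near Γ S.1 (rs S y').1 ∧
      ((rs S y').2 = S.2 ∨ (S.1 = v n ∧ S.2 = (rs S y').2 + 1)) := by
  have hy' : y = y' ∨ A y y' := hy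
  obtain ⟨x, β⟩ := S
  cases x with
  | v k =>
    obtain ⟨h1, h2, h3⟩ := stepr_v n k β y y' hI hy'
    refine ⟨h1, h2, ?_⟩
    rcases h3 with h3 | ⟨rfl, h3⟩
    · exact Or.inl h3
    · exact Or.inr ⟨rfl, h3⟩
  | a k j =>
    obtain ⟨h1, h2, h3⟩ := stepr_a n k j β y y' hI hy'
    exact ⟨h1, h2, Or.inl h3⟩
  | b k j =>
    obtain ⟨h1, h2, h3⟩ := stepr_b n k j β y y' hI hy'
    exact ⟨h1, h2, Or.inl h3⟩
  | c k j =>
    obtain ⟨h1, h2, h3⟩ := stepr_c n k j β y y' hI hy'
    exact ⟨h1, h2, Or.inl h3⟩
  | g k j => exact hI.2.2.elim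
  | h k j => exact hI.2.2.elim
  | p k j => exact hI.2.2.elim
  | q k j => exact hI.2.2.elim

theorem inv_init (y : W) (K : ℕ) : Inv (st y + 2) (v (st y + 2), K) y := by
  refine ⟨?_, ?_, Or.inr ⟨rfl, ?_⟩⟩
  · cases y <;> simp [st]
  · cases y <;> simp [A, E, st] <;> omega
  · cases y <;> simp [low, st]

theorem find_time (β : ℕ → ℕ) (P : ℕ → Prop) (h : ∀ k, β (k + 1) = β k ∨ (P k ∧ β k = β (k + 1) + 1)) (w : ℕ)
    (h0 : w < β 0) (hex : ∃ k, β k ≤ w) : ∃ t, P t ∧ β t = w + 1 ∧ β (t + 1) = w := by
  classical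
  have h1 := Nat.find_spec hex
  obtain ⟨t, ht⟩ : ∃ t, Nat.find hex = t + 1 := by
    refine Nat.exists_eq_succ_of_ne_zero ?_
    intro h2
    rw [h2] at h1
    omega
  have h3 : ¬ β t ≤ w := Nat.find_min hex (by omega)
  rw [ht] at h1
  refine ⟨t, ?_⟩
  rcases h t with h4 | ⟨h4, h5⟩
  · omega
  · exact ⟨h4, by omega, by omega⟩

theorem inv_fin (N K : ℕ) (T : W × ℕ) (y : W) (h2 : Inv N T y) (h3 : T.2 ≠ 0) (h1 : T.2 ≤ K) :
    T.1 ∈ insert (v N) (a N '' Set.Iic K ∪ b N '' Set.Iic K ∪ W.c N '' Set.Iic K) := by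
  obtain ⟨x, β⟩ := T
  cases x with
  | v i =>
    rcases h2.2.2 with h | ⟨rfl, -⟩
    · exact absurd h h3
    · exact Set.mem_insert _ _
  | a i j =>
    rcases h2.2.2 with h | ⟨rfl, h⟩
    · exact absurd h h3
    · exact Set.mem_insert_of_mem _ (Or.inl (Or.inl ⟨j, h.le.trans h1, rfl⟩))
  | b i j =>
    rcases h2.2.2 with h | ⟨rfl, h⟩
    · exact absurd h h3
    · exact Set.mem_insert_of_mem _ (Or.inl (Or.inr ⟨j, h.le.trans h1, rfl⟩))
  | c i j =>
    rcases h2.2.2 with h | ⟨rfl, h⟩
    · exact absurd h h3
    · exact Set.mem_insert_of_mem _ (Or.inr ⟨j, h.le.trans h1, rfl⟩)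
  | g i j => exact h2.2.2.elim
  | h i j => exact h2.2.2.elim
  | p i j => exact h2.2.2.elim
  | q i j => exact h2.2.2.elim

theorem double_return : DoubleLongReturn Γ := by
  intro c₀
  refine ⟨v (st c₀ + 2), fun m n hm hn =>
    ⟨fun l => (l.foldl rs (v (st c₀ + 2), m + n + 1)).1, fun y r h0 hc hr => ?_⟩⟩
  obtain ⟨hr0, hrs⟩ := hr
  obtain ⟨N, hN⟩ : ∃ N, N = st c₀ + 2 := ⟨_, rfl⟩
  obtain ⟨K, hK⟩ : ∃ K, K = m + n + 1 := ⟨_, rfl⟩
  rw [← hN] at hr0
  simp only [← hN, ← hK] at hrs ⊢
  obtain ⟨S, hS⟩ : ∃ S : ℕ → W × ℕ, ∀ k, S k = ((List.range k).map fun i => y (i + 1)).foldl rs (v N, K) :=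
    ⟨_, fun _ => rfl⟩
  have S0 : S 0 = (v N, K) := by rw [hS]; rfl
  have Ss : ∀ k, S (k + 1) = rs (S k) (y (k + 1)) := by
    intro k
    rw [hS, hS, List.range_succ, List.map_append, List.foldl_append]
    rfl
  have hrS : ∀ k, r k = (S k).1 := by
    intro k
    cases k with
    | zero => rw [hr0, S0]
    | succ k => rw [hrs k, hS]
  have hI : ∀ k, Inv N (S k) (y k) := by
    intro k
    induction k with
    | zero =>
      rw [S0, h0, hN]
      exact inv_init c₀ K
    | succ k ih =>
      rw [Ss k]
      exact (stepr N (S k) (y k) (y (k + 1)) ih (hc k)).1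
  have hst : ∀ k, Near Γ (S k).1 (S (k + 1)).1 ∧
      ((S (k + 1)).2 = (S k).2 ∨ ((S k).1 = v N ∧ (S k).2 = (S (k + 1)).2 + 1)) := by
    intro k
    rw [Ss k]
    exact (stepr N (S k) (y k) (y (k + 1)) (hI k) (hc k)).2
  refine ⟨fun k => ?_, ?_, ?_⟩
  · rw [hrS k, hrS (k + 1)]
    exact (hst k).1
  · rintro ⟨k, hk⟩
    rw [hrS k] at hk
    rcases hk with hk | hk
    · exact (hI k).1 hk
    · rcases hc k with h1 | h1
      · exact (hI k).1 (h1.trans hk)
      · rw [hk] at h1
        exact (hI k).2.1 h1
  · have hanti : ∀ k i, (S (k + i)).2 ≤ (S k).2 := by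
      intro k i
      induction i with
      | zero => exact le_rfl
      | succ i ih =>
        have := (hst (k + i)).2
        rw [show k + (i + 1) = k + i + 1 from rfl]
        rcases this with h | h <;> omega
    have hlow : ∀ k i, (S k).2 ≤ (S (k + i)).2 + i := by
      intro k i
      induction i with
      | zero => exact le_rfl
      | succ i ih =>
        have := (hst (k + i)).2
        rw [show k + (i + 1) = k + i + 1 from rfl]
        rcases this with h | h <;> omega
    have hK0 : (S 0).2 = K := by rw [S0]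
    by_cases hz : ∃ k, (S k).2 = 0
    · right
      obtain ⟨k, hk⟩ := hz
      obtain ⟨t, ht1, ht2, ht3⟩ := find_time (fun k => (S k).2) (fun k => (S k).1 = v N) (fun k => (hst k).2) n
        (by simp only [hK0]; omega) ⟨k, by simp only [hk]; omega⟩
      obtain ⟨s, hs1, hs2, hs3⟩ := find_time (fun k => (S k).2) (fun k => (S k).1 = v N) (fun k => (hst k).2) 0
        (by simp only [hK0]; omega) ⟨k, by simp only [hk]; omega⟩
      have h1 := hlow 0 (t + 1)
      rw [Nat.zero_add] at h1
      have hts : t ≤ s := by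
        by_contra hlt
        have h2 := hanti (s + 1) (t - (s + 1))
        rw [show s + 1 + (t - (s + 1)) = t by omega] at h2
        omega
      have h3 := hlow (t + 1) (s - t)
      rw [show t + 1 + (s - t) = s + 1 by omega] at h3
      refine ⟨t, s, by omega, by omega, ?_, ?_⟩
      · rw [hrS t, ht1]
      · rw [hrS s, hs1]
    · left
      push Not at hz
      refine ⟨insert (v N) (a N '' Set.Iic K ∪ b N '' Set.Iic K ∪ W.c N '' Set.Iic K), ?_, fun k => ?_⟩
      · exact ((((Set.finite_Iic K).image _).union ((Set.finite_Iic K).image _)).union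
          ((Set.finite_Iic K).image _)).insert _
      · have h1 : (S k).2 ≤ K := by
          have := hanti 0 k
          rw [Nat.zero_add, hK0] at this
          exact this
        rw [hrS k]
        exact inv_fin N K (S k) (y k) (hI k) (hz k) h1

theorem reach_v (n : ℕ) : Γ.Reachable (v 0) (v n) := by
  induction n with
  | zero => exact SimpleGraph.Reachable.refl _
  | succ n ih =>
    refine ih.trans (SimpleGraph.Adj.reachable ?_)
    show A _ _
    simp [A, E]

theorem reach (x : W) : Γ.Reachable (v 0) x := by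
  have ha : ∀ n j, Γ.Reachable (v 0) (a n j) := fun n j =>
    (reach_v n).trans (SimpleGraph.Adj.reachable (show A _ _ by simp [A, E]))
  have hg : ∀ n j, Γ.Reachable (v 0) (g n j) := fun n j =>
    (reach_v n).trans (SimpleGraph.Adj.reachable (show A _ _ by simp [A, E]))
  cases x with
  | v n => exact reach_v n
  | a n j => exact ha n j
  | g n j => exact hg n j
  | h n j => exact (reach_v n).trans (SimpleGraph.Adj.reachable (show A _ _ by simp [A, E]))
  | c n j => exact (reach_v n).trans (SimpleGraph.Adj.reachable (show A _ _ by simp [A, E]))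
  | b n j => exact (ha n j).trans (SimpleGraph.Adj.reachable (show A _ _ by simp [A, E]))
  | p n j => exact (ha n j).trans (SimpleGraph.Adj.reachable (show A _ _ by simp [A, E]))
  | q n j => exact (hg n j).trans (SimpleGraph.Adj.reachable (show A _ _ by simp [A, E]))

theorem conn : Γ.Connected := by
  have : Nonempty W := ⟨v 0⟩
  exact SimpleGraph.Connected.mk fun x y => (reach x).symm.trans (reach y)

/-- there is a connected graph which is a weak cop win and has the double long return property -/
theorem result : ∃ (V : Type) (G : SimpleGraph V), G.Connected ∧ WeakCopWin G ∧ DoubleLongReturn G :=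
  ⟨W, Γ, conn, weak_win, double_return⟩

end Pool.Agent.Results.MP_70f359_co.WeakWinWithReturns
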